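import Pool.Agent.QUD.StmtsX

/-!
# Squad QUD (MP_5b0138_an), row CLS
-/

set_option autoImplicit false

namespace Pool.Agent.QUD.H69

open Complex Pool.Agent.H62T Pool.Agent.AEU Pool.Agent.XQ Pool.Agent.QUD

/-- two points of a line with the unit normal `b` differ by a real multiple of `I * b` -/
theorem online (b w : ℂ) (hb : ‖b‖ = 1) (h : ip b w = 0) : ∃ l : ℝ, w = (l : ℂ) * (I * b) := by
  have hb2 : b.re * b.re + b.im * b.im = 1 := by
    have h1 := Complex.normSq_eq_norm_sq b
    rw [hb] at h1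
    rw [Complex.normSq_apply] at h1
    linarith
  refine ⟨b.re * w.im - b.im * w.re, ?_⟩
  unfold ip at h
  apply Complex.ext
  · simp only [Complex.mul_re, Complex.mul_im, Complex.I_re, Complex.I_im, Complex.ofReal_re,
      Complex.ofReal_im]
    linear_combination (-(w.re)) * hb2 + b.re * h
  · simp only [Complex.mul_re, Complex.mul_im, Complex.I_re, Complex.I_im, Complex.ofReal_re,
      Complex.ofReal_im]
    linear_combination (-(w.im)) * hb2 + b.im * h

theorem ipI (l : ℝ) (b c : ℂ) : ip c ((l : ℂ) * (I * b)) = l * dt b c := by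
  unfold ip dt
  simp only [Complex.mul_re, Complex.mul_im, Complex.I_re, Complex.I_im, Complex.ofReal_re,
      Complex.ofReal_im]
  ring

theorem ipsub (c v w : ℂ) : ip c (v - w) = ip c v - ip c w := by
  unfold ip
  simp only [Complex.sub_re, Complex.sub_im]
  ring

theorem dtsin (b c : ℂ) (y : ℝ) (hb : ‖b‖ = 1) (hc : ‖c‖ = 1) (hd : 0 < dt b c)
    (hy0 : 0 < y) (hy1 : y < Real.pi) (h : ip b c = -Real.cos y) : dt b c = Real.sin y := by
  have hb2 : b.re * b.re + b.im * b.im = 1 := by
    have h1 := Complex.normSq_eq_norm_sq b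
    rw [hb] at h1
    rw [Complex.normSq_apply] at h1
    linarith
  have hc2 : c.re * c.re + c.im * c.im = 1 := by
    have h1 := Complex.normSq_eq_norm_sq c
    rw [hc] at h1
    rw [Complex.normSq_apply] at h1
    linarith
  have h2 : dt b c ^ 2 = Real.sin y ^ 2 := by
    have h3 : dt b c ^ 2 + ip b c ^ 2 = 1 := by
      unfold dt ip
      have : (b.re * b.re + b.im * b.im) * (c.re * c.re + c.im * c.im) = 1 := by
        rw [hb2, hc2]; norm_num
      linear_combination this
    rw [h] at h3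
    have h4 := Real.sin_sq_add_cos_sq y
    linarith [h3, h4, (by ring : (-Real.cos y) ^ 2 = Real.cos y ^ 2)]
  have h5 : 0 < Real.sin y := Real.sin_pos_of_pos_of_lt_pi hy0 hy1
  exact (pow_left_inj₀ hd.le h5.le (by norm_num)).1 h2

/-- Row CLS. -/
theorem cls (vxx : VxxStatement) : ClsStmt := by
  intro a b c d L x y z hC hL hcls h1 h2
  obtain ⟨-, hv2, -⟩ := vxx _ hC.pg
  obtain ⟨hlen, hdist⟩ := hcls.2 a b c d rfl hC
  have hua : ‖a.1‖ = 1 := hC.pg.unit a (by simp)
  have hub : ‖b.1‖ = 1 := hC.pg.unit b (by simp)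
  have huc : ‖c.1‖ = 1 := hC.pg.unit c (by simp)
  have hud : ‖d.1‖ = 1 := hC.pg.unit d (by simp)
  have hI : ‖(I : ℂ)‖ = 1 := Complex.norm_I
  -- distances
  have hc : c.2 - ip c.1 (vx a b) = ‖vx a b - vx b c‖ * Real.sin y := by
    have hca : c ≠ a := by
      intro h
      subst h
      have h6 := hC.bc
      have h7 := hC.ab
      have e : dt c.1 b.1 = - dt b.1 c.1 := by unfold dt; ring
      linarith
    have hlt : ip c.1 (vx a b) < c.2 :=
      hv2 a b _ hC.vab c (by simp) hca hC.vbc.ne.symm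
    obtain ⟨l, hl⟩ := online b.1 (vx b c - vx a b) hub (by
      rw [ipsub, hC.vbc.on₁, hC.vab.on₂, sub_self])
    have h3 : c.2 - ip c.1 (vx a b) = l * dt b.1 c.1 := by
      rw [← ipI, ← hl, ipsub, hC.vbc.on₂]
    have hl0 : 0 < l := by
      have h4 : 0 < l * dt b.1 c.1 := by rw [← h3]; linarith
      exact (mul_pos_iff_of_pos_right hC.bc).1 h4
    have h5 : ‖vx a b - vx b c‖ = l := by
      rw [norm_sub_rev, hl, norm_mul, norm_mul, hI, hub, Complex.norm_real, Real.norm_eq_abs,
        abs_of_pos hl0]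
      ring
    rw [h3, h5, dtsin b.1 c.1 y hub huc hC.bc h1.y0 h1.y1 h1.cy]
  have hd : d.2 - ip d.1 (vx a b) = ‖vx d a - vx a b‖ * Real.sin z := by
    have hdb : d ≠ b := by
      intro h
      subst h
      have h6 := hC.bc
      have h7 := hC.cd
      have e : dt d.1 c.1 = - dt c.1 d.1 := by unfold dt; ring
      linarith
    have hlt : ip d.1 (vx a b) < d.2 :=
      hv2 a b _ hC.vab d (by simp) hC.vda.ne hdb
    obtain ⟨l, hl⟩ := online a.1 (vx a b - vx d a) hua (by
      rw [ipsub, hC.vab.on₁, hC.vda.on₂, sub_self])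
    have h3 : d.2 - ip d.1 (vx a b) = l * dt d.1 a.1 := by
      have h4 : ip d.1 (vx a b - vx d a) = l * dt a.1 d.1 := by rw [← ipI, ← hl]
      rw [ipsub, hC.vda.on₁] at h4
      have e : dt a.1 d.1 = - dt d.1 a.1 := by unfold dt; ring
      rw [e] at h4
      linarith
    have hl0 : 0 < l := by
      have h4 : 0 < l * dt d.1 a.1 := by rw [← h3]; linarith
      exact (mul_pos_iff_of_pos_right hC.da).1 h4
    have h5 : ‖vx d a - vx a b‖ = l := by
      rw [norm_sub_rev, hl, norm_mul, norm_mul, hI, hua, Complex.norm_real, Real.norm_eq_abs,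
        abs_of_pos hl0]
      ring
    rw [h3, h5, dtsin d.1 a.1 z hud hua hC.da h2.x0 h2.x1 h2.cx]
  have hsn1 : ∀ t : ℝ, Real.pi / 2 ≤ t → sn t = 1 := fun t ht => by
    unfold sn; rw [if_neg (not_lt.2 ht)]
  have hsn2 : ∀ t : ℝ, t ≤ Real.pi / 2 → sn t = Real.sin t := fun t ht => by
    unfold sn
    by_cases h : t < Real.pi / 2
    · rw [if_pos h]
    · rw [if_neg h]
      have : t = Real.pi / 2 := le_antisymm ht (not_lt.1 h)
      rw [this, Real.sin_pi_div_two]
  have e1 := h1.len
  have e2 := h2.len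
  have s1 := h1.sum
  have s2 := h2.sum
  by_cases hx : Real.pi / 2 < x
  · rw [hsn1 x hx.le] at e1 e2
    by_cases hy : Real.pi / 2 < y
    · by_cases hz : Real.pi / 2 < z
      · exfalso
        rw [hsn1 y hy.le] at e1
        rw [hsn1 z hz.le] at e2
        apply hlen
        linarith
      · exact Or.inl ⟨⟨hx, hy⟩, fun h => hz h.2⟩
    · by_cases hz : Real.pi / 2 < z
      · exact Or.inr ⟨fun h => hy h.2, ⟨hx, hz⟩⟩
      · exfalso
        rw [hsn2 y (not_lt.1 hy)] at e1
        rw [hsn2 z (not_lt.1 hz)] at e2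
        apply hdist
        rw [hc, hd]
        linarith
  · exfalso
    have hx' := not_lt.1 hx
    rw [hsn1 y (by linarith)] at e1
    rw [hsn1 z (by linarith)] at e2
    have hs : 0 < sn x := by
      rw [hsn2 x hx']
      exact Real.sin_pos_of_pos_of_lt_pi h1.x0 h1.x1
    apply hlen
    have h5 : ‖vx d a - vx a b‖ * sn x = ‖vx a b - vx b c‖ * sn x := by linarith
    exact mul_right_cancel₀ hs.ne' h5

end Pool.Agent.QUD.H69
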