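import Pool.Agent.QUD.StmtsY

/-!
# Squad QUD (MP_5b0138_an), row CLY
-/

set_option autoImplicit false

namespace Pool.Agent.QUD.H69Y

open Complex Pool.Agent.H62T Pool.Agent.AEU Pool.Agent.XQ Pool.Agent.QUD

/-- two points of a line with the unit normal `b` differ by a real multiple of `I * b` -/
theorem online (b w : ℂ) (hb : ‖b‖ = 1) (h : ip b w = 0) : ∃ l : ℝ, w = (l : ℂ) * (I * b) := by
  have hb2 : b.re * b.re + b.im * b.im = 1 := by
    have h1 := Complex.normSq_eq_norm_sq b
    rw [hb] at h1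
    rw [Complex.normSq_apply] at h1
    linarith
  refine ⟨b.re * w.im - b.im * w.re, ?_⟩
  unfold ip at h
  apply Complex.ext
  · simp only [Complex.mul_re, Complex.mul_im, Complex.I_re, Complex.I_im, Complex.ofReal_re,
      Complex.ofReal_im]
    linear_combination (-(w.re)) * hb2 + b.re * h
  · simp only [Complex.mul_re, Complex.mul_im, Complex.I_re, Complex.I_im, Complex.ofReal_re,
      Complex.ofReal_im]
    linear_combination (-(w.im)) * hb2 + b.im * h

theorem ipI (l : ℝ) (b c : ℂ) : ip c ((l : ℂ) * (I * b)) = l * dt b c := by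
  unfold ip dt
  simp only [Complex.mul_re, Complex.mul_im, Complex.I_re, Complex.I_im, Complex.ofReal_re,
      Complex.ofReal_im]
  ring

theorem ipsub (c v w : ℂ) : ip c (v - w) = ip c v - ip c w := by
  unfold ip
  simp only [Complex.sub_re, Complex.sub_im]
  ring

theorem dtsin (b c : ℂ) (y : ℝ) (hb : ‖b‖ = 1) (hc : ‖c‖ = 1) (hd : 0 < dt b c)
    (hy0 : 0 < y) (hy1 : y < Real.pi) (h : ip b c = -Real.cos y) : dt b c = Real.sin y := by
  have hb2 : b.re * b.re + b.im * b.im = 1 := by
    have h1 := Complex.normSq_eq_norm_sq b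
    rw [hb] at h1
    rw [Complex.normSq_apply] at h1
    linarith
  have hc2 : c.re * c.re + c.im * c.im = 1 := by
    have h1 := Complex.normSq_eq_norm_sq c
    rw [hc] at h1
    rw [Complex.normSq_apply] at h1
    linarith
  have h2 : dt b c ^ 2 = Real.sin y ^ 2 := by
    have h3 : dt b c ^ 2 + ip b c ^ 2 = 1 := by
      unfold dt ip
      have : (b.re * b.re + b.im * b.im) * (c.re * c.re + c.im * c.im) = 1 := by
        rw [hb2, hc2]; norm_num
      linear_combination this
    rw [h] at h3
    have h4 := Real.sin_sq_add_cos_sq y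
    linarith [h3, h4, (by ring : (-Real.cos y) ^ 2 = Real.cos y ^ 2)]
  have h5 : 0 < Real.sin y := Real.sin_pos_of_pos_of_lt_pi hy0 hy1
  exact (pow_left_inj₀ hd.le h5.le (by norm_num)).1 h2

/-- the distances of the point `a b` from the lines `c`, `d` -/
theorem dists (vxx : VxxStatement) {a b c d : HP} {L x y z : ℝ} (hC : Cyc a b c d)
    (h1 : Die a b c L x y) (h2 : Die d a b L z x) :
    c.2 - ip c.1 (vx a b) = ‖vx a b - vx b c‖ * Real.sin y ∧
    d.2 - ip d.1 (vx a b) = ‖vx d a - vx a b‖ * Real.sin z := by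
  obtain ⟨-, hv2, -⟩ := vxx _ hC.pg
  have hua : ‖a.1‖ = 1 := hC.pg.unit a (by simp)
  have hub : ‖b.1‖ = 1 := hC.pg.unit b (by simp)
  have huc : ‖c.1‖ = 1 := hC.pg.unit c (by simp)
  have hud : ‖d.1‖ = 1 := hC.pg.unit d (by simp)
  have hI : ‖(I : ℂ)‖ = 1 := Complex.norm_I
  constructor
  · have hca : c ≠ a := by
      intro h
      subst h
      have h6 := hC.bc
      have h7 := hC.ab
      have e : dt c.1 b.1 = - dt b.1 c.1 := by unfold dt; ring
      linarith
    have hlt : ip c.1 (vx a b) < c.2 :=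
      hv2 a b _ hC.vab c (by simp) hca hC.vbc.ne.symm
    obtain ⟨l, hl⟩ := online b.1 (vx b c - vx a b) hub (by
      rw [ipsub, hC.vbc.on₁, hC.vab.on₂, sub_self])
    have h3 : c.2 - ip c.1 (vx a b) = l * dt b.1 c.1 := by
      rw [← ipI, ← hl, ipsub, hC.vbc.on₂]
    have hl0 : 0 < l := by
      have h4 : 0 < l * dt b.1 c.1 := by rw [← h3]; linarith
      exact (mul_pos_iff_of_pos_right hC.bc).1 h4
    have h5 : ‖vx a b - vx b c‖ = l := by
      rw [norm_sub_rev, hl, norm_mul, norm_mul, hI, hub, Complex.norm_real, Real.norm_eq_abs,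
        abs_of_pos hl0]
      ring
    rw [h3, h5, dtsin b.1 c.1 y hub huc hC.bc h1.y0 h1.y1 h1.cy]
  · have hdb : d ≠ b := by
      intro h
      subst h
      have h6 := hC.bc
      have h7 := hC.cd
      have e : dt d.1 c.1 = - dt c.1 d.1 := by unfold dt; ring
      linarith
    have hlt : ip d.1 (vx a b) < d.2 :=
      hv2 a b _ hC.vab d (by simp) hC.vda.ne hdb
    obtain ⟨l, hl⟩ := online a.1 (vx a b - vx d a) hua (by
      rw [ipsub, hC.vab.on₁, hC.vda.on₂, sub_self])
    have h3 : d.2 - ip d.1 (vx a b) = l * dt d.1 a.1 := by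
      have h4 : ip d.1 (vx a b - vx d a) = l * dt a.1 d.1 := by rw [← ipI, ← hl]
      rw [ipsub, hC.vda.on₁] at h4
      have e : dt a.1 d.1 = - dt d.1 a.1 := by unfold dt; ring
      rw [e] at h4
      linarith
    have hl0 : 0 < l := by
      have h4 : 0 < l * dt d.1 a.1 := by rw [← h3]; linarith
      exact (mul_pos_iff_of_pos_right hC.da).1 h4
    have h5 : ‖vx d a - vx a b‖ = l := by
      rw [norm_sub_rev, hl, norm_mul, norm_mul, hI, hua, Complex.norm_real, Real.norm_eq_abs,
        abs_of_pos hl0]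
      ring
    rw [h3, h5, dtsin d.1 a.1 z hud hua hC.da h2.x0 h2.x1 h2.cx]

/-- the exterior angle of two sides with one side between them -/
theorem dtsum (a b c : ℂ) (x y : ℝ) (ha : ‖a‖ = 1) (hb : ‖b‖ = 1) (hc : ‖c‖ = 1)
    (hab : 0 < dt a b) (hbc : 0 < dt b c) (hx0 : 0 < x) (hx1 : x < Real.pi) (hy0 : 0 < y)
    (hy1 : y < Real.pi) (hs : Real.pi < x + y) (h1 : ip a b = -Real.cos x)
    (h2 : ip b c = -Real.cos y) : 0 < dt a c := by
  have hb2 : b.re * b.re + b.im * b.im = 1 := by
    have h3 := Complex.normSq_eq_norm_sq b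
    rw [hb] at h3
    rw [Complex.normSq_apply] at h3
    linarith
  have e : dt a c = dt a b * ip b c + ip a b * dt b c := by
    unfold dt ip
    linear_combination (-(a.re * c.im - a.im * c.re)) * hb2
  rw [e, h1, h2, dtsin a b x ha hb hab hx0 hx1 h1, dtsin b c y hb hc hbc hy0 hy1 h2]
  have h4 : Real.sin (x + y) < 0 := by
    have h5 : 0 < Real.sin (x + y - Real.pi) :=
      Real.sin_pos_of_pos_of_lt_pi (by linarith) (by linarith)
    rw [Real.sin_sub_pi] at h5
    linarith
  rw [Real.sin_add] at h4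
  nlinarith

/-- Row CLY. -/
theorem cly (vxx : VxxStatement) : ClyStmt := by
  intro X L l hL hX hl
  rcases hl with ⟨h1, -⟩ | ⟨a, b, c, d, x, y, -, -, hD, -, h1⟩ |
    ⟨a, b, c, d, x, y, z, hX', hC, hD, hE, -, h1⟩
  · subst h1
    refine ⟨⟨by simp, Or.inl rfl⟩, ?_⟩
    rintro ⟨a, b, c, h, -⟩
    exact absurd h (by simp)
  · subst h1
    refine ⟨⟨?_, Or.inr (Or.inl ⟨_, rfl⟩)⟩, ?_⟩
    · intro p hp
      rw [List.mem_singleton] at hp
      subst hp
      exact ⟨hD.x0, hD.x1, hD.y0, hD.y1, hD.sum⟩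
    · rintro ⟨a, b, c, h, -⟩
      exact absurd h (by simp)
  · subst h1
    refine ⟨⟨?_, Or.inr (Or.inr ⟨x, y, z, rfl⟩)⟩, ?_⟩
    · intro p hp
      rw [List.mem_cons, List.mem_singleton] at hp
      rcases hp with hp | hp
      · subst hp
        exact ⟨hD.x0, hD.x1, hD.y0, hD.y1, hD.sum⟩
      · subst hp
        refine ⟨hE.y0, hE.y1, hE.x0, hE.x1, ?_⟩
        have := hE.sum
        show Real.pi < x + z
        linarith
    · rintro ⟨a', b', c', h, hx, hy, hz⟩
      simp only [List.cons.injEq, Prod.mk.injEq, and_true] at h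
      obtain ⟨⟨e1, e2⟩, -, e3⟩ := h
      subst e1
      subst e2
      subst e3
      subst hX'
      have hua : ‖a.1‖ = 1 := hC.pg.unit a (by simp)
      have hub : ‖b.1‖ = 1 := hC.pg.unit b (by simp)
      have huc : ‖c.1‖ = 1 := hC.pg.unit c (by simp)
      have hud : ‖d.1‖ = 1 := hC.pg.unit d (by simp)
      have hac := dtsum a.1 b.1 c.1 x y hua hub huc hC.ab hC.bc hD.x0 hD.x1 hD.y0 hD.y1
        hD.sum hD.cx hD.cy
      have hdb := dtsum d.1 a.1 b.1 z x hud hua hub hC.da hC.ab hE.x0 hE.x1 hE.y0 hE.y1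
        hE.sum hE.cx hE.cy
      have hs : ∀ u w : ℂ, dt u w = 0 → dt w u = 0 := by
        intro u w h
        have e : dt w u = - dt u w := by unfold dt; ring
        rw [e, h, neg_zero]
      rcases hX with ⟨p, hp, q, hq, hne, h0⟩ | hX
      · simp only [Finset.mem_insert, Finset.mem_singleton] at hp hq
        have h0' := hs _ _ h0
        have k1 := hC.ab
        have k2 := hC.bc
        have k3 := hC.cd
        have k4 := hC.da
        rcases hp with hp | hp | hp | hp <;> rcases hq with hq | hq | hq | hq <;> subst hp <;>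
          subst hq <;> first
            | exact hne rfl
            | linarith
      · have h5 := dists vxx hC hD hE
        refine hX a b c d rfl hC ⟨?_, ?_, ?_⟩
        · have e1 := hD.len
          have e2 := hE.len
          have hsx : sn x = 1 := by
            unfold sn; rw [if_neg (not_lt.2 hx.le)]
          have hsy : sn y = Real.sin y := by
            unfold sn; rw [if_pos hy]
          have hsz : sn z = Real.sin z := by
            unfold sn; rw [if_pos hz]
          rw [hsx, hsy] at e1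
          rw [hsx, hsz] at e2
          rw [h5.1, h5.2]
          linarith
        · rw [hE.cx]
          have := Real.cos_pos_of_mem_Ioo ⟨by linarith [hE.x0, Real.pi_pos], hz⟩
          linarith
        · rw [hD.cy]
          have := Real.cos_pos_of_mem_Ioo ⟨by linarith [hD.y0, Real.pi_pos], hy⟩
          linarith

end Pool.Agent.QUD.H69Y
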